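import Pool.Agent.P.MP_a54059_lc.EQ.Final

namespace Pool.Agent.Results.MP_a54059_lc.EqualityLists

open Pool.Agent.P.MP_a54059_lc.EQ

/-- A decision list of equality queries for Majority of XORs has superpolynomial length. -/
theorem result : ∃ c : ℝ, 0 < c ∧ ∀ᶠ n : ℕ in Filter.atTop,
    ∀ (V : Type) (K : ℕ) (α β : Fin K → (Fin n → Bool) → V) (b : Fin K → Bool) (d : Bool),
      (∀ x y j, α j x = β j y → (∀ i < j, α i x ≠ β i y) →
        (b j = true ↔ n < 2 * hammingDist x y)) →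
      (∀ x y, (∀ i, α i x ≠ β i y) → (d = true ↔ n < 2 * hammingDist x y)) →
      (n : ℝ) ^ (c * Real.log n / Real.log (Real.log n)) ≤ K := by
  refine ⟨1 / 160000, by norm_num, ?_⟩
  filter_upwards [Filter.eventually_ge_atTop (2 ^ 2 ^ 20)] with n hn
  intro V K α β b d h1 h2
  have hn0 : n ≠ 0 := by
    have := Nat.two_pow_pos (2 ^ 20)
    omega
  obtain ⟨l, hl⟩ : ∃ l, l = Nat.log 2 n := ⟨_, rfl⟩
  have l1 : 2 ^ l ≤ n := hl ▸ Nat.pow_log_le_self 2 hn0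
  have l2 : n < 2 ^ (l + 1) := hl ▸ Nat.lt_pow_succ_log_self (by norm_num) n
  have l3 : 2 ^ 20 ≤ l := hl ▸ Nat.le_log_of_pow_le (by norm_num) hn
  clear hn
  obtain ⟨μ, hμ⟩ : ∃ μ, μ = Nat.log 2 l := ⟨_, rfl⟩
  have m1 : 2 ^ μ ≤ l := hμ ▸ Nat.pow_log_le_self 2 (by omega)
  have m2 : l < 2 ^ (μ + 1) := hμ ▸ Nat.lt_pow_succ_log_self (by norm_num) l
  have m3 : 20 ≤ μ := hμ ▸ Nat.le_log_of_pow_le (by norm_num) l3
  have m4 : 1000 * (μ + 1) ≤ l := (pow_big μ m3).trans m1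
  obtain ⟨γ, hγ⟩ : ∃ γ, γ = l / 12 := ⟨_, rfl⟩
  obtain ⟨T, hT⟩ : ∃ T, T = l / (100 * μ) := ⟨_, rfl⟩
  have t1 : 100 * (μ * T) ≤ l := by
    rw [← mul_assoc, hT]
    exact Nat.mul_div_le _ _
  have t2 : l < 100 * μ * (T + 1) := by
    rw [hT]
    exact Nat.lt_mul_div_succ _ (by omega)
  have t3 : 1 ≤ T := by
    by_contra h
    have : T = 0 := by omega
    rw [this] at t2
    omega
  have t4 : l ≤ 200 * (μ * T) := by nlinarith
  have g1 : 12 * γ ≤ l := by omega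
  have g2 : l ≤ 24 * γ := by omega
  have g3 : 2 ≤ γ * T := by nlinarith
  obtain ⟨k, hk⟩ : ∃ k, k + 1 = γ * T := ⟨γ * T - 1, by omega⟩
  have k1 : l * l ≤ 9600 * (μ * k) := by
    have a1 : l * l ≤ (24 * γ) * (200 * (μ * T)) := Nat.mul_le_mul g2 t4
    have a2 : (24 * γ) * (200 * (μ * T)) = 4800 * (μ * (k + 1)) := by rw [hk]; ring
    have a3 : μ * (k + 1) ≤ μ * (2 * k) := Nat.mul_le_mul_left _ (by omega)
    have a4 : μ * (2 * k) = 2 * (μ * k) := by ring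
    omega
  refine (rpow_bound n l μ k l1 l2 m1 m3 k1).trans ?_
  by_contra hcon
  have hK : K ≤ 2 ^ k := by
    have : (K : ℝ) < 2 ^ k := not_le.1 hcon
    exact_mod_cast this.le
  refine finite_bound α β b d h1 h2 (l + 1) (2 ^ γ) k T l2 (Nat.two_pow_pos _) hK ?_
    ((params l μ γ T k m4 m2.le (by omega) g1 t1 hk).trans l1)
  rw [← pow_mul, ← hk, pow_succ]
  have := Nat.two_pow_pos k
  omega

end Pool.Agent.Results.MP_a54059_lc.EqualityLists
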