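import Pool.Agent.P.MP_a54059_lc.Asym

/-!
Depth-three circuits for Majority need `2 ^ (0.894 * √n)` gates.

An input is the set `X` of variables set to one.  Bottom gate `i` has positive literals `P i` and
negative literals `N i`; middle gate `j` reads the bottom gates in `M j`; the top gate reads all
middle gates.  The first alternative is OR of AND of OR, the second is AND of OR of AND.
-/

namespace Pool.Agent.P.MP_a54059_lc.Old.MajDepthThree

open Finset

theorem result : ∃ n₀ : ℕ, ∀ n ≥ n₀, ∀ t : ℕ, n ≤ 2 * t → 2 * t ≤ n + 2 →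
    ∀ (a b : ℕ) (P N : Fin a → Finset (Fin n)) (M : Fin b → Finset (Fin a)),
      ((∀ X : Finset (Fin n),
          (∃ j, ∀ i ∈ M j, (∃ v ∈ P i, v ∈ X) ∨ (∃ v ∈ N i, v ∉ X)) ↔ t ≤ X.card) ∨
        (∀ X : Finset (Fin n),
          (∀ j, ∃ i ∈ M j, (∀ v ∈ P i, v ∈ X) ∧ (∀ v ∈ N i, v ∉ X)) ↔ t ≤ X.card)) →
      (2 : ℝ) ^ (0.894 * √n) ≤ a + b := by
  refine ⟨10 ^ 18, fun n hn t ht1 ht2 a b P N M h => ?_⟩
  rcases h with h | h
  · exact Pool.Agent.P.MP_a54059_lc.sigma_bound hn ht1 ht2 P N M h
  · refine Pool.Agent.P.MP_a54059_lc.sigma_bound hn (t := n - t + 1) (by omega) (by omega)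
      P N M (fun X => ?_)
    have h1 := not_congr (h Xᶜ)
    have h2 : X.card ≤ n := by simpa using card_le_univ X
    rw [card_compl, Fintype.card_fin] at h1
    have h3 : (¬ t ≤ n - X.card) ↔ n - t + 1 ≤ X.card := by omega
    rw [← h3, ← h1]
    simp only [not_forall, not_exists, not_and_or, mem_compl, not_not, exists_prop]
    apply exists_congr
    intro j
    apply forall_congr'
    intro i
    exact imp_iff_not_or

end Pool.Agent.P.MP_a54059_lc.Old.MajDepthThree
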