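import Pool.Agent.P.MP_a54059_lc.Three

/-!
An OR of CNFs whose clauses have at most three positive literals needs `1.26 ^ n` CNFs to compute
Majority.  An input is the set `X` of variables set to one; clause `i` has positive literals `P i`
and negative literals `N i`; CNF `j` consists of the clauses in `M j`.
-/

namespace Pool.Agent.P.MP_a54059_lc.Old.MajFanInThree

theorem result : ∃ n₀ : ℕ, ∀ n ≥ n₀, ∀ t : ℕ, n ≤ 2 * t → 2 * t ≤ n + 2 →
    ∀ (a b : ℕ) (P N : Fin a → Finset (Fin n)) (M : Fin b → Finset (Fin a)),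
      (∀ i, (P i).card ≤ 3) →
      (∀ X : Finset (Fin n),
        (∃ j, ∀ i ∈ M j, (∃ v ∈ P i, v ∈ X) ∨ (∃ v ∈ N i, v ∉ X)) ↔ t ≤ X.card) →
      (1.26 : ℝ) ^ n ≤ b :=
  Pool.Agent.P.MP_a54059_lc.three_bound

end Pool.Agent.P.MP_a54059_lc.Old.MajFanInThree
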